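import Pool.Agent.SHD.NFinal

/-!
The boundary of the shadow of a polynomial whose zeros are in convex position, but not the vertices
of a regular polygon, can have an inflection point.
-/

set_option autoImplicit false

open Polynomial

theorem Pool.Agent.Results.MP_cdc1ee_an.Inflection.result :
    ∃ P : ℂ[X], P.natDegree = 1000 ∧ Pool.Agent.SHD.ConvexPosition P ∧
      ¬ Pool.Agent.SHD.RegularPolygon P ∧
      ∃ p : ℂ, Pool.Agent.SHD.IsInflectionPoint (frontier (Pool.Agent.SHD.shadow P)) p :=
  Pool.Agent.SHD.cex
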